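import Mathlib

open Finset

namespace Pool.Agent.Helper20.PathLB

/-! ### Counting functions `E → Fin (Q+1)` -/

section Counting

variable {E : Type} [Fintype E] [DecidableEq E]

lemma card_zero_nonzero (Q : ℕ) (A B : Finset E) (hAB : Disjoint A B) :
    ((Finset.univ.filter (fun f : E → Fin (Q + 1) =>
        (∀ e ∈ A, f e = 0) ∧ ∀ e ∈ B, f e ≠ 0)).card : ℝ) =
      (Fintype.card (E → Fin (Q + 1)) : ℝ) *
        ((1 / ((Q : ℝ) + 1)) ^ A.card * (1 - 1 / ((Q : ℝ) + 1)) ^ B.card) := by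
  classical
  have hQ : (0 : ℝ) < (Q : ℝ) + 1 := by positivity
  have h1 : Finset.univ.filter (fun f : E → Fin (Q + 1) =>
        (∀ e ∈ A, f e = 0) ∧ ∀ e ∈ B, f e ≠ 0) =
      Fintype.piFinset (fun e => if e ∈ A then ({0} : Finset (Fin (Q + 1))) else
        if e ∈ B then (Finset.univ.erase (0 : Fin (Q + 1))) else Finset.univ) := by
    ext f
    simp only [Finset.mem_filter, Finset.mem_univ, true_and, Fintype.mem_piFinset]
    constructor
    · rintro ⟨h, h'⟩ e
      by_cases he : e ∈ A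
      · simp [he, h e he]
      · by_cases he' : e ∈ B
        · simp [he, he', h' e he']
        · simp [he, he']
    · intro h
      refine ⟨fun e he => ?_, fun e he => ?_⟩
      · have := h e
        simpa [he] using this
      · have h2 : e ∉ A := fun h3 => (Finset.disjoint_left.mp hAB) h3 he
        have := h e
        simpa [he, h2] using this
  rw [h1, Fintype.card_piFinset]
  have h2 : ∀ e : E, (if e ∈ A then ({0} : Finset (Fin (Q + 1))) else
        if e ∈ B then (Finset.univ.erase (0 : Fin (Q + 1))) else Finset.univ).card =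
      if e ∈ A then 1 else if e ∈ B then Q else (Q + 1) := by
    intro e
    split_ifs <;> simp
  simp only [h2]
  rw [Fintype.card_fun, Fintype.card_fin]
  push_cast
  have h3 : (∏ e : E, (if e ∈ A then (1 : ℝ) else if e ∈ B then (Q : ℝ) else ((Q : ℝ) + 1))) =
      ∏ e : E, (((Q : ℝ) + 1) * ((if e ∈ A then 1 / ((Q : ℝ) + 1) else 1) *
        (if e ∈ B then (1 - 1 / ((Q : ℝ) + 1)) else 1))) := by
    refine Finset.prod_congr rfl (fun e _ => ?_)
    by_cases he : e ∈ A
    · have h2 : e ∉ B := fun h3 => (Finset.disjoint_left.mp hAB) he h3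
      simp only [he, h2, if_true, if_false]
      field_simp
    · by_cases he' : e ∈ B
      · simp only [he, he', if_true, if_false]
        field_simp
        ring
      · simp [he, he']
  rw [h3, Finset.prod_mul_distrib, Finset.prod_const, Finset.card_univ, Finset.prod_mul_distrib,
    Finset.prod_ite_mem, Finset.univ_inter, Finset.prod_const, Finset.prod_ite_mem,
    Finset.univ_inter, Finset.prod_const]

/-- The main union bound: functions `f` for which some pairwise disjoint family of sets `X i`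
on which `f` vanishes covers all the zeros of `f` in `P`. -/
lemma bad_card (Q : ℕ) (hQ : 1 ≤ Q) (P : Finset E) {ι : Type} [DecidableEq ι]
    (X : ι → Finset E) (e : ℕ) (hX : ∀ i, (X i).card = e) (A : Finset ι)
    (hA : ∀ i, (∃ a ∈ P, a ∈ X i) → i ∈ A) :
    ∃ B : Finset (E → Fin (Q + 1)),
      (∀ f : E → Fin (Q + 1), (∃ F : Finset ι,
        (∀ i ∈ F, ∀ j ∈ F, i ≠ j → Disjoint (X i) (X j)) ∧
        (∀ i ∈ F, ∀ a ∈ X i, f a = 0) ∧ (∀ a ∈ P, f a = 0 → ∃ i ∈ F, a ∈ X i)) → f ∈ B) ∧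
      (B.card : ℝ) ≤ (Fintype.card (E → Fin (Q + 1)) : ℝ) *
        ((1 + (1 / (Q : ℝ)) ^ e) ^ A.card * (1 - 1 / ((Q : ℝ) + 1)) ^ P.card) := by
  classical
  have hQ0 : (0 : ℝ) < (Q : ℝ) := by exact_mod_cast hQ
  have hQ1 : (0 : ℝ) < (Q : ℝ) + 1 := by positivity
  set S : Finset (Finset ι) := A.powerset.filter
    (fun F => ∀ i ∈ F, ∀ j ∈ F, i ≠ j → Disjoint (X i) (X j)) with hS
  set Bf : Finset ι → Finset (E → Fin (Q + 1)) := fun F =>
    Finset.univ.filter (fun f : E → Fin (Q + 1) =>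
        (∀ a ∈ F.biUnion X, f a = 0) ∧ ∀ a ∈ P \ F.biUnion X, f a ≠ 0) with hBf
  refine ⟨S.biUnion Bf, ?_, ?_⟩
  · rintro f ⟨F, h1, h2, h3⟩
    rw [Finset.mem_biUnion]
    refine ⟨F.filter (fun i => i ∈ A), ?_, ?_⟩
    · rw [hS, Finset.mem_filter, Finset.mem_powerset]
      refine ⟨fun i hi => (Finset.mem_filter.mp hi).2, fun i hi j hj hij => ?_⟩
      exact h1 i (Finset.mem_filter.mp hi).1 j (Finset.mem_filter.mp hj).1 hij
    · rw [hBf, Finset.mem_filter]
      refine ⟨Finset.mem_univ _, fun a ha => ?_, fun a ha h4 => ?_⟩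
      · obtain ⟨i, hi, hai⟩ := Finset.mem_biUnion.mp ha
        exact h2 i (Finset.mem_filter.mp hi).1 a hai
      · rw [Finset.mem_sdiff] at ha
        obtain ⟨i, hi, hai⟩ := h3 a ha.1 h4
        exact ha.2 (Finset.mem_biUnion.mpr ⟨i, Finset.mem_filter.mpr ⟨hi, hA i ⟨a, ha.1, hai⟩⟩, hai⟩)
  · have h1 : ((S.biUnion Bf).card : ℝ) ≤ ∑ F ∈ S, ((Bf F).card : ℝ) := by
      exact_mod_cast Finset.card_biUnion_le
    have h2 : ∀ F ∈ S, ((Bf F).card : ℝ) ≤ (Fintype.card (E → Fin (Q + 1)) : ℝ) *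
        (((1 / (Q : ℝ)) ^ e) ^ F.card * (1 - 1 / ((Q : ℝ) + 1)) ^ P.card) := by
      intro F hF
      rw [hS, Finset.mem_filter] at hF
      have h3 : (F.biUnion X).card = e * F.card := by
        rw [Finset.card_biUnion (fun i hi j hj hij => hF.2 i hi j hj hij),
          Finset.sum_congr rfl (fun i _ => hX i), Finset.sum_const, smul_eq_mul, mul_comm]
      rw [hBf]
      simp only
      rw [card_zero_nonzero Q _ _ Finset.disjoint_sdiff]
      refine mul_le_mul_of_nonneg_left ?_ (Nat.cast_nonneg _)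
      have h4 : (1 : ℝ) - 1 / ((Q : ℝ) + 1) = Q / ((Q : ℝ) + 1) := by
        field_simp
        ring
      have h5 : (1 : ℝ) / ((Q : ℝ) + 1) = (1 / Q) * (Q / ((Q : ℝ) + 1)) := by
        field_simp
      have h6 : (0 : ℝ) ≤ Q / ((Q : ℝ) + 1) := by positivity
      have h7 : Q / ((Q : ℝ) + 1) ≤ 1 := by
        rw [div_le_one hQ1]
        linarith
      rw [h4, h5, mul_pow, mul_assoc, ← pow_add, h3, pow_mul]
      refine mul_le_mul_of_nonneg_left ?_ (by positivity)
      refine pow_le_pow_of_le_one h6 h7 ?_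
      rw [← h3]
      have h8 : P ⊆ F.biUnion X ∪ (P \ F.biUnion X) := by
        intro a ha
        by_cases h9 : a ∈ F.biUnion X
        · exact Finset.mem_union_left _ h9
        · exact Finset.mem_union_right _ (Finset.mem_sdiff.mpr ⟨ha, h9⟩)
      exact (Finset.card_le_card h8).trans (Finset.card_union_le _ _)
    have h3 : ∑ F ∈ S, ((Bf F).card : ℝ) ≤ ∑ F ∈ A.powerset,
        (Fintype.card (E → Fin (Q + 1)) : ℝ) *
        (((1 / (Q : ℝ)) ^ e) ^ F.card * (1 - 1 / ((Q : ℝ) + 1)) ^ P.card) := by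
      refine (Finset.sum_le_sum h2).trans ?_
      refine Finset.sum_le_sum_of_subset_of_nonneg (Finset.filter_subset _ _) (fun F _ _ => ?_)
      have h6 : (0 : ℝ) ≤ 1 - 1 / ((Q : ℝ) + 1) := by
        rw [sub_nonneg, div_le_one hQ1]
        linarith
      positivity
    refine h1.trans (h3.trans (le_of_eq ?_))
    rw [← Finset.mul_sum, ← Finset.sum_mul]
    congr 2
    have h4 := Finset.sum_pow_mul_eq_add_pow ((1 / (Q : ℝ)) ^ e) 1 A
    simp only [one_pow, mul_one] at h4
    rw [h4, add_comm]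

end Counting

end Pool.Agent.Helper20.PathLB
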