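import Mathlib
import Pool.Agent.Helper20.PathLB.Count

open Finset

namespace Pool.Agent.Helper20.PathLB

/-- unordered pairs inside `W` -/
def prs {n : ℕ} (W : Finset (Fin n)) : Finset (Sym2 (Fin n)) :=
  W.offDiag.image (Function.uncurry Sym2.mk)

lemma card_prs {n : ℕ} (W : Finset (Fin n)) : (prs W).card = W.card.choose 2 :=
  Sym2.card_image_offDiag W

lemma mem_prs {n : ℕ} {W : Finset (Fin n)} {x y : Fin n} :
    s(x, y) ∈ prs W ↔ x ∈ W ∧ y ∈ W ∧ x ≠ y := by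
  unfold prs
  rw [Finset.mem_image]
  constructor
  · rintro ⟨⟨a, b⟩, hab, h⟩
    rw [Finset.mem_offDiag] at hab
    simp only [Function.uncurry_apply_pair, Sym2.eq_iff] at h
    rcases h with ⟨rfl, rfl⟩ | ⟨rfl, rfl⟩
    · exact hab
    · exact ⟨hab.2.1, hab.1, hab.2.2.symm⟩
  · intro h
    exact ⟨(x, y), Finset.mem_offDiag.mpr h, rfl⟩

section
variable {v n : ℕ} (P : Finset (Fin v × Fin v))

/-- the image of the pairs `P` under an embedding -/
def X (φ : Fin v ↪ Fin n) : Finset (Sym2 (Fin n)) := P.image (fun p => s(φ p.1, φ p.2))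

lemma card_X (hP : ∀ p ∈ P, p.1 < p.2) (φ : Fin v ↪ Fin n) : (X P φ).card = P.card := by
  unfold X
  refine Finset.card_image_of_injOn ?_
  rintro ⟨a, b⟩ hab ⟨c, d⟩ hcd h
  have h1 := hP _ hab
  have h2 := hP _ hcd
  simp only [Sym2.eq_iff, EmbeddingLike.apply_eq_iff_eq] at h h1 h2
  rcases h with ⟨rfl, rfl⟩ | ⟨rfl, rfl⟩
  · rfl
  · exact absurd (lt_trans h1 h2) (lt_irrefl _)

lemma touching_card (hP : ∀ p ∈ P, p.1 < p.2) (W : Finset (Fin n)) :
    ((Finset.univ.filter (fun φ : Fin v ↪ Fin n => ∃ a ∈ prs W, a ∈ X P φ)).card : ℕ) ≤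
      P.card * (W.card ^ 2 * n ^ (v - 2)) := by
  classical
  have h1 : (Finset.univ.filter (fun φ : Fin v ↪ Fin n => ∃ a ∈ prs W, a ∈ X P φ)).image
      (fun φ : Fin v ↪ Fin n => (φ : Fin v → Fin n)) ⊆
      P.biUnion (fun p => Fintype.piFinset (fun i => if i = p.1 ∨ i = p.2 then W else Finset.univ)) := by
    intro g hg
    obtain ⟨φ, hφ, rfl⟩ := Finset.mem_image.mp hg
    obtain ⟨a, ha, haX⟩ := (Finset.mem_filter.mp hφ).2
    obtain ⟨p, hp, rfl⟩ := Finset.mem_image.mp haX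
    rw [mem_prs] at ha
    rw [Finset.mem_biUnion]
    refine ⟨p, hp, ?_⟩
    rw [Fintype.mem_piFinset]
    intro i
    split_ifs with hi
    · rcases hi with rfl | rfl
      · exact ha.1
      · exact ha.2.1
    · exact Finset.mem_univ _
  have h2 : (Finset.univ.filter (fun φ : Fin v ↪ Fin n => ∃ a ∈ prs W, a ∈ X P φ)).card =
      ((Finset.univ.filter (fun φ : Fin v ↪ Fin n => ∃ a ∈ prs W, a ∈ X P φ)).image
      (fun φ : Fin v ↪ Fin n => (φ : Fin v → Fin n))).card := by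
    rw [Finset.card_image_of_injective]
    exact DFunLike.coe_injective
  rw [h2]
  refine (Finset.card_le_card h1).trans (Finset.card_biUnion_le.trans ?_)
  rw [← smul_eq_mul, ← Finset.sum_const]
  refine Finset.sum_le_sum (fun p hp => ?_)
  rw [Fintype.card_piFinset]
  have h3 : ∀ i : Fin v, (if i = p.1 ∨ i = p.2 then W else Finset.univ).card =
      if i ∈ ({p.1, p.2} : Finset (Fin v)) then W.card else n := by
    intro i
    by_cases hi : i = p.1 ∨ i = p.2
    · simp [hi]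
    · simp [hi]
  rw [Finset.prod_congr rfl (fun i _ => h3 i), Finset.prod_ite, Finset.prod_const,
    Finset.prod_const]
  have h4 : (Finset.univ.filter (fun i : Fin v => i ∈ ({p.1, p.2} : Finset (Fin v)))) =
      {p.1, p.2} := by
    ext i
    simp
  have h5 : (Finset.univ.filter (fun i : Fin v => i ∉ ({p.1, p.2} : Finset (Fin v)))) =
      ({p.1, p.2} : Finset (Fin v))ᶜ := by
    ext i
    simp
  rw [h4, h5, Finset.card_compl, Finset.card_pair (hP p hp).ne, Fintype.card_fin]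

/-- The graph obtained from `f` and the family `F`. -/
def gr {Q : ℕ} (f : Sym2 (Fin n) → Fin (Q + 1)) (F : Finset (Fin v ↪ Fin n)) :
    SimpleGraph (Fin n) where
  Adj x y := x ≠ y ∧ (f s(x, y) ≠ 0 ∨ ∃ φ ∈ F, s(x, y) ∈ X P φ)
  symm := ⟨fun x y h => ⟨h.1.symm, by rw [Sym2.eq_swap]; exact h.2⟩⟩
  loopless := ⟨fun x h => h.1 rfl⟩

/-- families: pairwise disjoint, vanishing -/
def Good {Q : ℕ} (f : Sym2 (Fin n) → Fin (Q + 1)) (F : Finset (Fin v ↪ Fin n)) : Prop :=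
  (∀ i ∈ F, ∀ j ∈ F, i ≠ j → Disjoint (X P i) (X P j)) ∧ (∀ i ∈ F, ∀ a ∈ X P i, f a = 0)

lemma exists_max {Q : ℕ} (f : Sym2 (Fin n) → Fin (Q + 1)) :
    ∃ F : Finset (Fin v ↪ Fin n), Good P f F ∧ ∀ F', Good P f F' → F'.card ≤ F.card := by
  classical
  obtain ⟨F, hF, hmax⟩ := Finset.exists_max_image
    (Finset.univ.filter (fun F : Finset (Fin v ↪ Fin n) => Good P f F)) Finset.card
    ⟨∅, by
      rw [Finset.mem_filter]
      exact ⟨Finset.mem_univ _, fun i hi => absurd hi (Finset.notMem_empty _),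
        fun i hi => absurd hi (Finset.notMem_empty _)⟩⟩
  exact ⟨F, (Finset.mem_filter.mp hF).2, fun F' hF' =>
    hmax F' (Finset.mem_filter.mpr ⟨Finset.mem_univ _, hF'⟩)⟩

/-- no embedding sends all the pairs of `P` to non-edges -/
lemma no_copy {Q : ℕ} (hP : ∀ p ∈ P, p.1 < p.2) (hPne : P.Nonempty)
    (f : Sym2 (Fin n) → Fin (Q + 1)) (F : Finset (Fin v ↪ Fin n))
    (hF : Good P f F) (hmax : ∀ F', Good P f F' → F'.card ≤ F.card) (φ : Fin v ↪ Fin n) :
    ∃ p ∈ P, (gr P f F).Adj (φ p.1) (φ p.2) := by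
  classical
  by_contra hcon
  push Not at hcon
  have h1 : ∀ p ∈ P, f s(φ p.1, φ p.2) = 0 ∧ ∀ ψ ∈ F, s(φ p.1, φ p.2) ∉ X P ψ := by
    intro p hp
    have h2 := hcon p hp
    have h3 : φ p.1 ≠ φ p.2 := fun h => (hP p hp).ne (φ.injective h)
    unfold gr at h2
    simp only [not_and, not_or, not_exists, not_not] at h2
    exact h2 h3
  have h4 : φ ∉ F := by
    intro hφ
    obtain ⟨p, hp⟩ := hPne
    exact (h1 p hp).2 φ hφ (Finset.mem_image.mpr ⟨p, hp, rfl⟩)
  have h5 : ∀ ψ ∈ F, Disjoint (X P φ) (X P ψ) := by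
    intro ψ hψ
    rw [Finset.disjoint_left]
    intro a ha hb
    obtain ⟨p, hp, rfl⟩ := Finset.mem_image.mp ha
    exact (h1 p hp).2 ψ hψ hb
  have h6 : Good P f (insert φ F) := by
    refine ⟨?_, ?_⟩
    · intro i hi j hj hij
      rcases Finset.mem_insert.mp hi with rfl | hi'
      · rcases Finset.mem_insert.mp hj with rfl | hj'
        · exact absurd rfl hij
        · exact h5 j hj'
      · rcases Finset.mem_insert.mp hj with rfl | hj'
        · exact (h5 i hi').symm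
        · exact hF.1 i hi' j hj' hij
    · intro i hi a ha
      rcases Finset.mem_insert.mp hi with rfl | hi'
      · obtain ⟨p, hp, rfl⟩ := Finset.mem_image.mp ha
        exact (h1 p hp).1
      · exact hF.2 i hi' a ha
  have h7 := hmax _ h6
  rw [Finset.card_insert_of_notMem h4] at h7
  omega

/-- The existence statement under numerical hypotheses. -/
theorem exists_graph (hP : ∀ p ∈ P, p.1 < p.2) (hPne : P.Nonempty) (hn : 1 ≤ n) (Q w : ℕ)
    (hQ : 1 ≤ Q) (hw : 2 ≤ w)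
    (H1 : 8 * (P.card : ℝ) * (n : ℝ) ^ (v - 2) * ((Q : ℝ) + 1) ≤ (Q : ℝ) ^ P.card)
    (H2 : 4 * ((Q : ℝ) + 1) * Real.log n < (w : ℝ) - 1) :
    ∃ G : SimpleGraph (Fin n), (∀ φ : Fin v ↪ Fin n, ∃ p ∈ P, G.Adj (φ p.1) (φ p.2)) ∧
      ∀ W : Finset (Fin n), G.IsClique (W : Set (Fin n)) → W.card < w := by
  classical
  have hQ0 : (0 : ℝ) < (Q : ℝ) := by exact_mod_cast hQ
  have hQ1 : (0 : ℝ) < (Q : ℝ) + 1 := by positivity
  have hnpos : (0 : ℝ) < n := by exact_mod_cast hn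
  have hw2 : (2 : ℝ) ≤ (w : ℝ) := by exact_mod_cast hw
  -- the bad sets
  have hbad : ∀ W : Finset (Fin n), ∃ B : Finset (Sym2 (Fin n) → Fin (Q + 1)),
      (∀ f : Sym2 (Fin n) → Fin (Q + 1), (∃ F : Finset (Fin v ↪ Fin n),
        (∀ i ∈ F, ∀ j ∈ F, i ≠ j → Disjoint (X P i) (X P j)) ∧
        (∀ i ∈ F, ∀ a ∈ X P i, f a = 0) ∧ (∀ a ∈ prs W, f a = 0 → ∃ i ∈ F, a ∈ X P i)) → f ∈ B) ∧
      (B.card : ℝ) ≤ (Fintype.card (Sym2 (Fin n) → Fin (Q + 1)) : ℝ) *
        ((1 + (1 / (Q : ℝ)) ^ P.card) ^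
          (Finset.univ.filter (fun φ : Fin v ↪ Fin n => ∃ a ∈ prs W, a ∈ X P φ)).card *
          (1 - 1 / ((Q : ℝ) + 1)) ^ (prs W).card) := by
    intro W
    exact bad_card Q hQ (prs W) (X P) P.card (card_X P hP) _
      (fun φ h => Finset.mem_filter.mpr ⟨Finset.mem_univ _, h⟩)
  choose B hB1 hB2 using hbad
  set total : ℝ := (Fintype.card (Sym2 (Fin n) → Fin (Q + 1)) : ℝ) with htotal
  have htot : 0 < total := by
    rw [htotal]
    exact_mod_cast Fintype.card_pos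
  have hest : ∀ W : Finset (Fin n), W.card = w →
      ((B W).card : ℝ) ≤ total * Real.exp (-((w : ℝ) * (w - 1)) / (4 * ((Q : ℝ) + 1))) := by
    intro W hW
    refine (hB2 W).trans (mul_le_mul_of_nonneg_left ?_ htot.le)
    set a := (Finset.univ.filter (fun φ : Fin v ↪ Fin n => ∃ a ∈ prs W, a ∈ X P φ)).card with ha
    have ha1 : (a : ℝ) ≤ (P.card : ℝ) * ((w : ℝ) ^ 2 * (n : ℝ) ^ (v - 2)) := by
      have := touching_card P hP W
      rw [hW] at this
      exact_mod_cast this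
    have h1 : (1 + (1 / (Q : ℝ)) ^ P.card) ^ a ≤
        Real.exp ((w : ℝ) * (w - 1) / (4 * ((Q : ℝ) + 1))) := by
      have h2 : (1 + (1 / (Q : ℝ)) ^ P.card) ≤ Real.exp ((1 / (Q : ℝ)) ^ P.card) := by
        have := Real.add_one_le_exp ((1 / (Q : ℝ)) ^ P.card)
        linarith
      have h3 : (0 : ℝ) ≤ 1 + (1 / (Q : ℝ)) ^ P.card := by positivity
      refine (pow_le_pow_left₀ h3 h2 a).trans ?_
      rw [← Real.exp_nat_mul, Real.exp_le_exp, one_div, inv_pow, ← div_eq_mul_inv,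
        div_le_div_iff₀ (by positivity) (by positivity)]
      have h4 : (a : ℝ) * (4 * ((Q : ℝ) + 1)) ≤
          (P.card : ℝ) * ((w : ℝ) ^ 2 * (n : ℝ) ^ (v - 2)) * (4 * ((Q : ℝ) + 1)) :=
        mul_le_mul_of_nonneg_right ha1 (by positivity)
      have h5 : (P.card : ℝ) * ((w : ℝ) ^ 2 * (n : ℝ) ^ (v - 2)) * (4 * ((Q : ℝ) + 1)) =
          (w : ℝ) ^ 2 / 2 * (8 * (P.card : ℝ) * (n : ℝ) ^ (v - 2) * ((Q : ℝ) + 1)) := by ring
      have h6 : (w : ℝ) ^ 2 / 2 * (8 * (P.card : ℝ) * (n : ℝ) ^ (v - 2) * ((Q : ℝ) + 1)) ≤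
          (w : ℝ) ^ 2 / 2 * (Q : ℝ) ^ P.card := mul_le_mul_of_nonneg_left H1 (by positivity)
      have h7 : (w : ℝ) ^ 2 / 2 ≤ (w : ℝ) * (w - 1) := by nlinarith
      have h8 : (w : ℝ) ^ 2 / 2 * (Q : ℝ) ^ P.card ≤ (w : ℝ) * (w - 1) * (Q : ℝ) ^ P.card :=
        mul_le_mul_of_nonneg_right h7 (by positivity)
      linarith
    have h2 : (1 - 1 / ((Q : ℝ) + 1)) ^ (prs W).card ≤
        Real.exp (-((w : ℝ) * (w - 1)) / (2 * ((Q : ℝ) + 1))) := by
      have h3 : (1 - 1 / ((Q : ℝ) + 1)) ≤ Real.exp (-(1 / ((Q : ℝ) + 1))) :=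
        Real.one_sub_le_exp_neg _
      have h4 : (0 : ℝ) ≤ 1 - 1 / ((Q : ℝ) + 1) := by
        rw [sub_nonneg, div_le_one hQ1]
        linarith
      refine (pow_le_pow_left₀ h4 h3 _).trans ?_
      rw [← Real.exp_nat_mul, Real.exp_le_exp, card_prs, hW, Nat.cast_choose_two]
      apply le_of_eq
      field_simp
    have h4 : (0 : ℝ) ≤ (1 - 1 / ((Q : ℝ) + 1)) ^ (prs W).card := by
      apply pow_nonneg
      rw [sub_nonneg, div_le_one hQ1]
      linarith
    refine (mul_le_mul h1 h2 h4 (Real.exp_pos _).le).trans (le_of_eq ?_)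
    rw [← Real.exp_add]
    congr 1
    field_simp
    ring
  -- a good function
  have hgood : ∃ f : Sym2 (Fin n) → Fin (Q + 1),
      ∀ W ∈ (Finset.univ : Finset (Fin n)).powersetCard w, f ∉ B W := by
    by_contra hcon
    push Not at hcon
    have h1 : (Finset.univ : Finset (Sym2 (Fin n) → Fin (Q + 1))) ⊆
        ((Finset.univ : Finset (Fin n)).powersetCard w).biUnion B := by
      intro f _
      obtain ⟨W, hW, hf⟩ := hcon f
      exact Finset.mem_biUnion.mpr ⟨W, hW, hf⟩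
    have h2 : total ≤ ∑ W ∈ (Finset.univ : Finset (Fin n)).powersetCard w, ((B W).card : ℝ) := by
      have h3 := (Finset.card_le_card h1).trans Finset.card_biUnion_le
      rw [Finset.card_univ] at h3
      rw [htotal]
      exact_mod_cast h3
    have h3 : ∑ W ∈ (Finset.univ : Finset (Fin n)).powersetCard w, ((B W).card : ℝ) ≤
        (n : ℝ) ^ w * (total * Real.exp (-((w : ℝ) * (w - 1)) / (4 * ((Q : ℝ) + 1)))) := by
      refine (Finset.sum_le_sum (fun W hW => hest W (Finset.mem_powersetCard.mp hW).2)).trans ?_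
      rw [Finset.sum_const, nsmul_eq_mul, Finset.card_powersetCard, Finset.card_univ,
        Fintype.card_fin]
      refine mul_le_mul_of_nonneg_right ?_ (by positivity)
      exact_mod_cast Nat.choose_le_pow n w
    have h4 : (n : ℝ) ^ w * Real.exp (-((w : ℝ) * (w - 1)) / (4 * ((Q : ℝ) + 1))) < 1 := by
      have h5 : (n : ℝ) ^ w = Real.exp ((w : ℝ) * Real.log n) := by
        rw [mul_comm, Real.exp_mul, Real.exp_log hnpos]
        norm_cast
      rw [h5, ← Real.exp_add, Real.exp_lt_one_iff]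
      have h6 : (w : ℝ) * Real.log n < (w : ℝ) * (w - 1) / (4 * ((Q : ℝ) + 1)) := by
        rw [lt_div_iff₀ (by positivity)]
        have h7 : (w : ℝ) * (4 * ((Q : ℝ) + 1) * Real.log n) < (w : ℝ) * (w - 1) :=
          mul_lt_mul_of_pos_left H2 (by linarith)
        linarith
      rw [neg_div]
      linarith
    have h5 : (n : ℝ) ^ w * (total * Real.exp (-((w : ℝ) * (w - 1)) / (4 * ((Q : ℝ) + 1)))) =
        total * ((n : ℝ) ^ w * Real.exp (-((w : ℝ) * (w - 1)) / (4 * ((Q : ℝ) + 1)))) := by ring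
    have h6 := mul_lt_mul_of_pos_left h4 htot
    rw [mul_one] at h6
    linarith
  obtain ⟨f, hf⟩ := hgood
  obtain ⟨F, hF, hmax⟩ := exists_max P f
  refine ⟨gr P f F, no_copy P hP hPne f F hF hmax, fun W hW => ?_⟩
  by_contra hcon
  push Not at hcon
  obtain ⟨W', hW'W, hW'⟩ := Finset.exists_subset_card_eq hcon
  refine hf W' (Finset.mem_powersetCard.mpr ⟨Finset.subset_univ _, hW'⟩) (hB1 W' f ⟨F, hF.1, hF.2, ?_⟩)
  intro a
  induction a using Sym2.ind with
  | _ x y =>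
    intro ha hfa
    rw [mem_prs] at ha
    have h1 := hW (hW'W ha.1) (hW'W ha.2.1) ha.2.2
    rcases h1.2 with h2 | h2
    · exact absurd hfa h2
    · exact h2

end

end Pool.Agent.Helper20.PathLB
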