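import Mathlib
import Pool.Agent.Helper20.PathLB.Graph

open Finset

namespace Pool.Agent.Helper20.PathLB

/-- Main asymptotic statement for a set `P` of pairs. -/
theorem exists_family {v : ℕ} (hv : 3 ≤ v) (P : Finset (Fin v × Fin v))
    (hP : ∀ p ∈ P, p.1 < p.2) (he : 2 ≤ P.card) :
    ∃ c : ℝ, 0 < c ∧ ∀ k : ℕ, 2 ≤ k → ∃ (n : ℕ) (G : SimpleGraph (Fin n)), 1 ≤ n ∧
      (∀ φ : Fin v ↪ Fin n, ∃ p ∈ P, G.Adj (φ p.1) (φ p.2)) ∧
      (∀ W : Finset (Fin n), G.IsClique (W : Set (Fin n)) → W.card ≤ k) ∧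
      c * ((k : ℝ) / Real.log k) ^ (((P.card : ℝ) - 1) / ((v : ℝ) - 2)) ≤ n := by
  classical
  have hPne : P.Nonempty := Finset.card_pos.mp (by omega)
  set e : ℝ := (P.card : ℝ) with hedef
  have he2 : (2 : ℝ) ≤ e := by rw [hedef]; exact_mod_cast he
  have hv2 : (1 : ℝ) ≤ (v : ℝ) - 2 := by
    have : (3 : ℝ) ≤ v := by exact_mod_cast hv
    linarith
  set s : ℝ := (e - 1) / ((v : ℝ) - 2) with hs
  have hs0 : 0 < s := div_pos (by linarith) (by linarith)
  set u : ℝ := 1 / ((v : ℝ) - 2) with hu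
  have hu0 : 0 < u := div_pos one_pos (by linarith)
  have hu1 : u ≤ 1 := by
    rw [hu, div_le_one (by linarith)]
    exact hv2
  set A : ℝ := 8 * e with hA
  have hA0 : 0 < A := by positivity
  set D : ℝ := 32 * e * A with hD
  have hD0 : 0 < D := by positivity
  set c1 : ℝ := 1 / 2 * ((1 / (16 * e)) ^ u * (1 / (2 * A)) ^ s) with hc1
  have hc10 : 0 < c1 := by positivity
  set c2 : ℝ := (1 / D) ^ s with hc2
  have hc20 : 0 < c2 := by positivity
  refine ⟨min c1 c2, lt_min hc10 hc20, fun k hk => ?_⟩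
  have hk0 : (0 : ℝ) < k := by exact_mod_cast (by omega : 0 < k)
  have hk2 : (2 : ℝ) ≤ k := by exact_mod_cast hk
  have hL : 0 < Real.log k := Real.log_pos (by linarith)
  have hLhalf : (1 : ℝ) / 2 ≤ Real.log k := by
    have h1 : Real.log 2 ≤ Real.log k := Real.log_le_log (by norm_num) hk2
    have h2 := Real.log_two_gt_d9
    linarith
  set L : ℝ := Real.log k with hLdef
  have hkL0 : 0 < (k : ℝ) / L := div_pos hk0 hL
  by_cases hcase : D ≤ (k : ℝ) / L
  · -- main case
    set Q : ℕ := ⌊(k : ℝ) / (A * L)⌋₊ with hQdef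
    have h16 : (1 : ℝ) ≤ (k : ℝ) / (2 * A * L) := by
      rw [le_div_iff₀ (by positivity)]
      rw [le_div_iff₀ hL] at hcase
      have : 2 * A * L ≤ D * L := by
        apply mul_le_mul_of_nonneg_right _ hL.le
        rw [hD]
        nlinarith
      linarith
    have h17 : 16 * e ≤ (k : ℝ) / (2 * A * L) := by
      rw [le_div_iff₀ (by positivity)]
      rw [le_div_iff₀ hL] at hcase
      have : 16 * e * (2 * A * L) = D * L := by
        rw [hD]
        ring
      linarith
    have h18 : (k : ℝ) / (2 * A * L) ≤ (k : ℝ) / (A * L) - (k : ℝ) / (2 * A * L) := by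
      apply le_of_eq
      field_simp
      ring
    have hQlow : (k : ℝ) / (2 * A * L) ≤ (Q : ℝ) := by
      have h19 : (k : ℝ) / (A * L) < (Q : ℝ) + 1 := Nat.lt_floor_add_one _
      have h20 : (k : ℝ) / (A * L) = 2 * ((k : ℝ) / (2 * A * L)) := by
        field_simp
      -- floor x ≥ x/2 for x ≥ 2
      by_contra hcon
      push Not at hcon
      linarith
    have hQup : (Q : ℝ) ≤ (k : ℝ) / (A * L) := Nat.floor_le (by positivity)
    have hQ1r : (1 : ℝ) ≤ (Q : ℝ) := h16.trans hQlow
    have hQ1 : 1 ≤ Q := by exact_mod_cast hQ1r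
    have hQ0 : (0 : ℝ) < (Q : ℝ) := by linarith
    have hQk : (Q : ℝ) ≤ k := by
      refine hQup.trans ?_
      apply div_le_self hk0.le
      have : (1 : ℝ) ≤ 8 * 2 * (1 / 2) := by norm_num
      rw [hA]
      nlinarith
    set y : ℝ := ((Q : ℝ) ^ (P.card - 1) / (16 * e)) ^ u with hy
    have hQe : 16 * e ≤ (Q : ℝ) ^ (P.card - 1) := by
      have h21 : (Q : ℝ) ^ 1 ≤ (Q : ℝ) ^ (P.card - 1) := pow_le_pow_right₀ hQ1r (by omega)
      rw [pow_one] at h21
      exact (h17.trans hQlow).trans h21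
    have hy1 : 1 ≤ y := by
      rw [hy]
      apply Real.one_le_rpow _ hu0.le
      rw [le_div_iff₀ (by positivity), one_mul]
      exact hQe
    set n : ℕ := ⌊y⌋₊ with hn
    have hn1 : 1 ≤ n := Nat.le_floor (by exact_mod_cast hy1)
    have hny : (n : ℝ) ≤ y := Nat.floor_le (by linarith)
    have hyn : y / 2 ≤ n := by
      have h22 : y < (n : ℝ) + 1 := Nat.lt_floor_add_one _
      have h23 : (1 : ℝ) ≤ n := by exact_mod_cast hn1
      linarith
    have hnpos : (0 : ℝ) < n := by exact_mod_cast (by omega : 0 < n)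
    have hvcast : (((v - 2 : ℕ) : ℕ) : ℝ) = (v : ℝ) - 2 := by
      rw [Nat.cast_sub (by omega)]
      norm_num
    have hecast : (((P.card - 1 : ℕ) : ℕ) : ℝ) = e - 1 := by
      rw [Nat.cast_sub (by omega)]
      norm_num [hedef]
    have hypow : y ^ (v - 2) = (Q : ℝ) ^ (P.card - 1) / (16 * e) := by
      rw [hy, ← Real.rpow_natCast, ← Real.rpow_mul (by positivity), hvcast, hu,
        one_div_mul_cancel (by linarith), Real.rpow_one]
    have hnpow : (n : ℝ) ^ (v - 2) ≤ (Q : ℝ) ^ (P.card - 1) / (16 * e) := by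
      rw [← hypow]
      exact pow_le_pow_left₀ hnpos.le hny _
    have H1 : 8 * (P.card : ℝ) * (n : ℝ) ^ (v - 2) * ((Q : ℝ) + 1) ≤ (Q : ℝ) ^ P.card := by
      rw [le_div_iff₀ (by positivity)] at hnpow
      have h24 : (Q : ℝ) ^ P.card = (Q : ℝ) ^ (P.card - 1) * Q := by
        rw [← pow_succ]
        congr 1
        omega
      rw [h24, ← hedef]
      have h25 : 8 * e * (n : ℝ) ^ (v - 2) * ((Q : ℝ) + 1) ≤
          8 * e * (n : ℝ) ^ (v - 2) * (2 * (Q : ℝ)) := by
        apply mul_le_mul_of_nonneg_left _ (by positivity)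
        linarith
      have h26 : 8 * e * (n : ℝ) ^ (v - 2) * (2 * (Q : ℝ)) = (n : ℝ) ^ (v - 2) * (16 * e) * Q := by
        ring
      have h27 := mul_le_mul_of_nonneg_right hnpow hQ0.le
      linarith
    have hlogn : Real.log n ≤ (e - 1) * L := by
      have h28 : (n : ℝ) ≤ (Q : ℝ) ^ (P.card - 1) := by
        have h29 : (n : ℝ) ^ 1 ≤ (n : ℝ) ^ (v - 2) :=
          pow_le_pow_right₀ (by exact_mod_cast hn1) (by omega)
        rw [pow_one] at h29
        refine h29.trans (hnpow.trans ?_)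
        apply div_le_self (by positivity)
        linarith
      have h30 : (n : ℝ) ≤ (k : ℝ) ^ (P.card - 1) := h28.trans (pow_le_pow_left₀ hQ0.le hQk _)
      have h31 := Real.log_le_log hnpos h30
      rw [Real.log_pow, hecast] at h31
      exact h31
    have H2 : 4 * ((Q : ℝ) + 1) * Real.log n < ((k + 1 : ℕ) : ℝ) - 1 := by
      push_cast
      have h32 : 4 * ((Q : ℝ) + 1) * Real.log n ≤ 8 * Q * ((e - 1) * L) := by
        have h33 : 4 * ((Q : ℝ) + 1) ≤ 8 * Q := by linarith
        have h34 : 0 ≤ Real.log n := Real.log_nonneg (by exact_mod_cast hn1)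
        exact mul_le_mul h33 hlogn h34 (by positivity)
      have h35 : 8 * Q * ((e - 1) * L) < k := by
        have h36 : (Q : ℝ) * (A * L) ≤ k := by
          rw [← le_div_iff₀ (by positivity)]
          exact hQup
        rw [hA] at h36
        have h37 : 0 < 8 * (Q : ℝ) * L := by positivity
        nlinarith
      linarith
    obtain ⟨G, hG1, hG2⟩ := exists_graph P hP hPne hn1 Q (k + 1) hQ1 (by omega) H1 H2
    refine ⟨n, G, hn1, hG1, fun W hW => Nat.lt_succ_iff.mp (hG2 W hW), ?_⟩
    have h40 : min c1 c2 * ((k : ℝ) / L) ^ s ≤ c1 * ((k : ℝ) / L) ^ s :=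
      mul_le_mul_of_nonneg_right (min_le_left _ _) (by positivity)
    refine h40.trans (le_trans ?_ hyn)
    have h41 : y = (Q : ℝ) ^ s * (1 / (16 * e)) ^ u := by
      rw [hy, div_eq_mul_one_div, Real.mul_rpow (by positivity) (by positivity),
        ← Real.rpow_natCast, ← Real.rpow_mul hQ0.le, hecast, hs, hu]
      congr 2
      ring
    have h42 : ((k : ℝ) / (2 * A * L)) ^ s ≤ (Q : ℝ) ^ s :=
      Real.rpow_le_rpow (by positivity) hQlow hs0.le
    have h43 : ((k : ℝ) / (2 * A * L)) ^ s = (1 / (2 * A)) ^ s * ((k : ℝ) / L) ^ s := by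
      rw [← Real.mul_rpow (by positivity) (by positivity)]
      congr 1
      field_simp
    rw [h41, hc1]
    have h44 : (0 : ℝ) ≤ (1 / (16 * e)) ^ u := by positivity
    have h45 := mul_le_mul_of_nonneg_right h42 h44
    rw [h43] at h45
    linarith
  · -- trivial case
    push Not at hcase
    refine ⟨1, ⊥, le_refl _, ?_, ?_, ?_⟩
    · intro φ
      exfalso
      have := Fintype.card_le_of_embedding φ
      simp only [Fintype.card_fin] at this
      omega
    · intro W _
      have := Finset.card_le_univ W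
      simp only [Fintype.card_fin] at this
      omega
    · have h1 : min c1 c2 * ((k : ℝ) / L) ^ s ≤ c2 * ((k : ℝ) / L) ^ s :=
        mul_le_mul_of_nonneg_right (min_le_right _ _) (by positivity)
      refine h1.trans ?_
      rw [hc2, ← Real.mul_rpow (by positivity) (by positivity)]
      push_cast
      apply Real.rpow_le_one (by positivity) _ hs0.le
      rw [one_div_mul_eq_div, div_le_one hD0]
      exact hcase.le

end Pool.Agent.Helper20.PathLB
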